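import Pool.Agent.V11176.MetaBox2

open Set Cardinal

namespace Pool.Agent.Results.MP_4cb3df_gt.NotMetanormal

universe u

/-- The `<κ`-box topology on the functions `J → V` (`V` discrete): `U` is open when every `x ∈ U`
has a set `D` of fewer than `κ` coordinates such that every `y` agreeing with `x` on `D` is in `U`.
So the sets `{y | y = x on D}`, `#D < κ`, form a neighbourhood base at `x`. -/
def boxTopology (κ : Cardinal.{u}) (hκ : ℵ₀ ≤ κ) (J V : Type u) : TopologicalSpace (J → V) where
  IsOpen U := ∀ x ∈ U, ∃ D : Set J, #D < κ ∧ {y : J → V | ∀ j ∈ D, y j = x j} ⊆ U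
  isOpen_univ := fun x _ => ⟨∅, by simpa using aleph0_pos.trans_le hκ, subset_univ _⟩
  isOpen_inter := by
    intro U W hU hW x hx
    obtain ⟨D, hD, hDU⟩ := hU x hx.1
    obtain ⟨D', hD', hDW⟩ := hW x hx.2
    refine ⟨D ∪ D', (mk_union_le _ _).trans_lt (add_lt_of_lt hκ hD hD'), fun y hy => ⟨?_, ?_⟩⟩
    · exact hDU fun j hj => hy j (Or.inl hj)
    · exact hDW fun j hj => hy j (Or.inr hj)
  isOpen_sUnion := by
    intro s hs x hx
    obtain ⟨U, hU, hxU⟩ := hx
    obtain ⟨D, hD, hDU⟩ := hs U hU x hxU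
    exact ⟨D, hD, hDU.trans (subset_sUnion_of_mem hU)⟩

/-- Every point has an open neighbourhood meeting at most one `F n`. -/
def DiscreteSeq {X : Type u} [TopologicalSpace X] (F : ℕ → Set X) : Prop :=
  ∀ x, ∃ W, IsOpen W ∧ x ∈ W ∧ ∀ m n, (W ∩ F m).Nonempty → (W ∩ F n).Nonempty → m = n

/-- Every discrete sequence of closed sets has a point-finite open expansion. -/
def Metanormal (X : Type u) [TopologicalSpace X] : Prop :=
  ∀ F : ℕ → Set X, (∀ n, IsClosed (F n)) → DiscreteSeq F →
    ∃ U : ℕ → Set X, (∀ n, IsOpen (U n) ∧ F n ⊆ U n) ∧ ∀ x, {n | x ∈ U n}.Finite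

open V11176.MetaBox in
/-- If `κ` has uncountable cofinality, the `<κ`-box power of `κ⁺` copies of the discrete space `κ`
is not metanormal (in ZFC, without `κ^{<κ} = κ`). -/
theorem result (κ : Cardinal.{u}) (hκ : ℵ₀ ≤ κ) (hcof : ℵ₀ < κ.ord.cof) (J V : Type u)
    (hJ : #J = Order.succ κ) (hV : #V = κ) :
    ¬ @Metanormal (J → V) (boxTopology κ hκ J V) := by
  intro hM
  letI : TopologicalSpace (J → V) := boxTopology κ hκ J V
  have hVi : Infinite V := by rw [infinite_iff, hV]; exact hκ
  obtain ⟨c, hc⟩ : ∃ c : ℕ → V, Function.Injective c :=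
    ⟨Infinite.natEmbedding V, (Infinite.natEmbedding V).injective⟩
  let F : ℕ → Set (J → V) := fun n => {x | ∀ i j, x i = x j → x i ≠ c n → i = j}
  have hpair : ∀ i j : J, #({i, j} : Set J) < κ := fun i j =>
    ((Set.toFinite ({i, j} : Set J)).lt_aleph0).trans_le hκ
  have hclosed : ∀ n, IsClosed (F n) := by
    intro n
    rw [← isOpen_compl_iff]
    intro x hx
    have hx' : ¬ ∀ i j, x i = x j → x i ≠ c n → i = j := hx
    push Not at hx'
    obtain ⟨i, j, h1, h2, h3⟩ := hx'
    refine ⟨{i, j}, hpair i j, fun y hy hyF => h3 ?_⟩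
    have hi : y i = x i := hy i (by simp)
    have hj : y j = x j := hy j (by simp)
    exact hyF i j (by rw [hi, hj, h1]) (by rw [hi]; exact h2)
  have hdisc : DiscreteSeq F := by
    intro x
    have hni : ¬ Function.Injective x := by
      intro hx
      have := mk_le_of_injective hx
      rw [hJ, hV] at this
      exact absurd this (not_le.2 (Order.lt_succ κ))
    unfold Function.Injective at hni
    push Not at hni
    obtain ⟨i, j, hij, hne⟩ := hni
    refine ⟨{y | ∀ k ∈ ({i, j} : Set J), y k = x k}, ?_, fun k _ => rfl, ?_⟩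
    · intro y hy
      exact ⟨{i, j}, hpair i j, fun z hz k hk => (hz k hk).trans (hy k hk)⟩
    · have key : ∀ m, ({y : J → V | ∀ k ∈ ({i, j} : Set J), y k = x k} ∩ F m).Nonempty →
          x i = c m := by
        rintro m ⟨y, hy, hyF⟩
        by_contra hm
        have hi : y i = x i := hy i (by simp)
        have hj : y j = x j := hy j (by simp)
        exact hne (hyF i j (by rw [hi, hj, hij]) (by rw [hi]; exact hm))
      intro m n h1 h2
      exact hc ((key m h1).symm.trans (key n h2))
  obtain ⟨U, hU, hfin⟩ := hM F hclosed hdisc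
  have hU1 : ∀ n, ∀ x ∈ U n, ∃ D : Set J, #D < κ ∧
      ∀ x' : J → V, (∀ j ∈ D, x' j = x j) → x' ∈ U n := by
    intro n x hx
    obtain ⟨D, hD, hDU⟩ := (hU n).1 x hx
    exact ⟨D, hD, fun x' hx' => hDU hx'⟩
  have hU2 : ∀ n e, PInj e → pt e (c n) ∈ U n := by
    intro n e he
    apply (hU n).2
    intro i j hij hne
    have hi : i ∈ dom e := by
      by_contra h
      exact hne (pt_not_mem h)
    have hj : j ∈ dom e := by
      by_contra h
      exact hne (hij.trans (pt_not_mem h))
    obtain ⟨p, hp, rfl⟩ := hi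
    obtain ⟨q, hq, rfl⟩ := hj
    rw [pt_mem he hp, pt_mem he hq] at hij
    exact (he p hp q hq).2 hij
  obtain ⟨x, hx⟩ : ∃ x : J → V, ∀ n, x ∈ U n := by
    rcases (Ordinal.cof_ord_le κ).lt_or_eq with h | h
    · exact exists_point_singular κ hcof h hV c U hU1 hU2
    · exact exists_point_regular κ ⟨hκ, h.ge⟩ (h ▸ hcof) hV c U hU1 hU2
  have huniv : {n | x ∈ U n} = Set.univ := eq_univ_of_forall hx
  have := hfin x
  rw [huniv] at this
  exact infinite_univ this

end Pool.Agent.Results.MP_4cb3df_gt.NotMetanormal
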